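import Pool.Agent.Lib.MP_4d246d_lc.Sq.Super

/-!
# The adversary

A block of level `k + 1` consists of two blocks of level `k` and of `18 h` legs of level `k`. In
these legs a new closed set `B` is built, and at the end everything that was closed in the block is
released, except `B`.
-/

namespace Pool.Agent.MP4d246d.Gain.Sq

variable {n : ℕ}

/-- The outcome of a block of level `k`, played from `p` with closed set `A`. -/
structure Played (ρ : PivotRule n) (v₀ : Vertex n) (h s k : ℕ)
    (l : History n) (p : Vertex n) (A : Finset (Fin n))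
    (new : History n) (p' : Vertex n) (A' : Finset (Fin n)) (𝒱 : Set (Mark n)) (𝒦 : Set (Con n))
    (𝓛 : List (Rec n)) : Prop where
  hist : Hist ρ v₀ (new ++ l) p'
  len : 36 * h * 2 ^ k ≤ new.length + 36 * h
  seg : Seg A p (l.length : ℝ) A' p' ((new.length : ℝ) + l.length) 𝒱 𝒦 ∅
  card : (A' \ A).card ≤ s
  expl : ∀ e ∈ new, Expl 𝒱 p' ((new.length : ℝ) + l.length) e
  start : Start 𝒱 p (l.length : ℝ) p' ((new.length : ℝ) + l.length)
  recs : (𝓛.map fun r => (1 / 5 : ℝ) ^ (k - r.lev)).sum ≤ 6 * h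
  rec_lev : ∀ r ∈ 𝓛, r.lev < k
  rec_sub : ∀ r ∈ 𝓛, A ⊆ r.Z
  rec_Z : ∀ r ∈ 𝓛, (r.Z \ A).card ≤ 14 * s * r.lev + 2 + (k - r.lev + 2) * s
  rec_U : ∀ r ∈ 𝓛, r.U.card ≤ (k - r.lev + 1) * s
  cover : ∀ κ ∈ 𝒦, ∃ r ∈ 𝓛, Covers r κ

theorem play (ρ : PivotRule n) (v₀ : Vertex n) (E : Finset (Fin n)) (h s : ℕ) (hh : 1 ≤ h)
    (hs : s = 70 * h) (hE : Eᶜ.card = 14 * s * h) :
    ∀ (k : ℕ) (l : History n) (p : Vertex n) (A : Finset (Fin n)), Hist ρ v₀ l p → E ⊆ A →
      (A \ E).card + k * s ≤ h * s →
      ∃ (new : History n) (p' : Vertex n) (A' : Finset (Fin n)) (𝒱 : Set (Mark n))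
        (𝒦 : Set (Con n)) (𝓛 : List (Rec n)), Played ρ v₀ h s k l p A new p' A' 𝒱 𝒦 𝓛 := by
  classical
  intro k
  induction k with
  | zero =>
    intro l p A hl hEA _
    refine ⟨[], p, A, ∅, ∅, [], ?_⟩
    constructor
    · simpa using hl
    · simp
    · simpa using seg_empty A p (l.length : ℝ)
    · simp
    · simp
    · left; simp
    · simp
    · simp
    · simp
    · simp
    · simp
    · simp
  | succ k ih =>
    intro l p A hl hEA hbud
    have hspos : 1 ≤ s := by omega
    have hkh : k + 1 ≤ h := by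
      have : (k + 1) * s ≤ h * s := by omega
      exact Nat.le_of_mul_le_mul_right this (by omega)
    have hk1 : (k + 1) * s = k * s + s := by ring
    have hEc : E.card + Eᶜ.card = n := by
      rw [Finset.card_add_card_compl, Fintype.card_fin]
    -- the first block
    obtain ⟨new₁, p₁, A₁, 𝒱₁, 𝒦₁, 𝓛₁, P₁⟩ := ih l p A hl hEA (by omega)
    have hAA₁ : A ⊆ A₁ := P₁.seg.sub
    have hsd : ∀ {X Y : Finset (Fin n)}, (Y \ X).card ≤ s → (Y \ E).card ≤ (X \ E).card + s := by
      intro X Y hXY
      have h1 : Y \ E ⊆ (X \ E) ∪ (Y \ X) := by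
        intro c hc
        simp only [Finset.mem_sdiff, Finset.mem_union] at hc ⊢
        tauto
      have h2 := Finset.card_le_card h1
      have h3 := Finset.card_union_le (X \ E) (Y \ X)
      omega
    have hA₁E := hsd P₁.card
    -- the second block
    obtain ⟨new₂, p₂, A₂, 𝒱₂, 𝒦₂, 𝓛₂, P₂⟩ := ih (new₁ ++ l) p₁ A₁ P₁.hist (hEA.trans hAA₁)
      (by omega)
    have hA₁A₂ : A₁ ⊆ A₂ := P₂.seg.sub
    have hA₂E := hsd P₂.card
    have hT₁ : (((new₁ ++ l).length : ℕ) : ℝ) = (new₁.length : ℝ) + l.length := by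
      rw [List.length_append]; push_cast; ring
    set T₂ : ℝ := (new₂.length : ℝ) + ((new₁ ++ l).length : ℕ) with hT₂
    have hseg₂ : Seg A₁ p₁ ((new₁.length : ℝ) + l.length) A₂ p₂ T₂ 𝒱₂ 𝒦₂ ∅ := by
      rw [← hT₁]; exact P₂.seg
    have hseg₁₂ := seg_compose P₁.seg hseg₂ ∅ (by simp)
    -- the long legs
    have hlevs : ∀ r ∈ 𝓛₁ ++ 𝓛₂, r.lev < k := by
      intro r hr
      rcases List.mem_append.mp hr with hr | hr
      · exact P₁.rec_lev r hr
      · exact P₂.rec_lev r hr
    obtain ⟨new₃, x, B, 𝒱₃, 𝒦₃, 𝓝, α, S, hits⟩ := super ρ v₀ E h s k hs hE hkh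
      (new₂ ++ (new₁ ++ l)) p₂ P₂.hist A₂ (by
        have h1 : A₂.card ≤ (A₂ \ E).card + E.card := by
          have := Finset.card_le_card (show A₂ ⊆ (A₂ \ E) ∪ E by
            intro c hc; simp only [Finset.mem_union, Finset.mem_sdiff]; tauto)
          exact this.trans (Finset.card_union_le _ _)
        obtain ⟨d, hd⟩ : ∃ d, h = k + 1 + d := ⟨h - (k + 1), by omega⟩
        have h2 : 14 * s * h = 14 * s * k + 14 * s + 14 * (s * d) := by rw [hd]; ring
        have h3 : h * s = k * s + s + s * d := by rw [hd]; ring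
        omega)
      (𝓛₁ ++ 𝓛₂) hlevs (by
        intro r hr
        rcases List.mem_append.mp hr with hr | hr
        · refine le_trans (Finset.card_le_card ?_) (P₁.rec_Z r hr)
          exact Finset.sdiff_subset_sdiff subset_rfl (hAA₁.trans hA₁A₂)
        · refine le_trans (Finset.card_le_card ?_) (P₂.rec_Z r hr)
          exact Finset.sdiff_subset_sdiff subset_rfl hA₁A₂)
      (by
        intro r hr
        rcases List.mem_append.mp hr with hr | hr
        · exact P₁.rec_U r hr
        · exact P₂.rec_U r hr)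
      (by
        intro r hr
        rcases List.mem_append.mp hr with hr | hr
        · exact hEA.trans (P₁.rec_sub r hr)
        · exact (hEA.trans hAA₁).trans (P₂.rec_sub r hr))
      (by
        rw [List.map_append, List.sum_append]
        have h1 := P₁.recs
        have h2 := P₂.recs
        linarith)
    have hBcard : B.card ≤ s := by rw [hs]; exact S.card le_rfl
    have hT₂' : (((new₂ ++ (new₁ ++ l)).length : ℕ) : ℝ) = T₂ := by
      rw [List.length_append, hT₂]; push_cast; ring
    set T₃ : ℝ := (new₃.length : ℝ) + ((new₂ ++ (new₁ ++ l)).length : ℕ) with hT₃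
    have hseg₃ : Seg A₂ p₂ T₂ (A₂ ∪ B) x T₃ 𝒱₃ 𝒦₃ B := by
      rw [← hT₂']; exact S.seg
    have hseg := seg_compose hseg₁₂ hseg₃ B fun b hb => Or.inl hb
    have hlen₃ : 1 ≤ new₃.length := by have := S.len; omega
    have hT : (l.length : ℝ) + 1 ≤ T₃ := by
      have h3 : (1 : ℝ) ≤ new₃.length := by exact_mod_cast hlen₃
      rw [hT₃, hT₂', hT₂, hT₁]
      have h4 : (0 : ℝ) ≤ new₁.length := Nat.cast_nonneg _
      have h5 : (0 : ℝ) ≤ new₂.length := Nat.cast_nonneg _
      linarith
    have hrel := seg_release hseg hT B subset_rfl (by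
      rintro κ ((hκ | hκ) | hκ)
      · obtain ⟨r, hr, hrκ⟩ := P₁.cover κ hκ
        exact hrκ.sees (hits r (List.mem_append_left _ hr))
      · obtain ⟨r, hr, hrκ⟩ := P₂.cover κ hκ
        exact hrκ.sees (hits r (List.mem_append_right _ hr))
      · exact S.see κ hκ)
    have hT₃' : (((new₃ ++ (new₂ ++ new₁)).length : ℕ) : ℝ) + l.length = T₃ := by
      rw [List.length_append, List.length_append, hT₃, List.length_append, List.length_append]
      push_cast; ring
    have hstart₂ : Start 𝒱₂ p₁ ((new₁.length : ℝ) + l.length) p₂ T₂ := by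
      have := P₂.start
      rw [hT₁] at this
      rw [hT₂, hT₁]; exact this
    have hstart₃ : Start 𝒱₃ p₂ T₂ x T₃ := by
      have := S.start
      rw [hT₂'] at this
      rw [hT₃, hT₂']; exact this
    set f : Rec n → Rec n := fun r => ⟨r.q, r.Z, r.U ∪ forb B x, r.lev⟩ with hf
    have hfU : ∀ r, (f r).U.card ≤ r.U.card + s := by
      intro r
      have h1 := Finset.card_union_le r.U (forb B x)
      have h2 := forb_card B x
      show (r.U ∪ forb B x).card ≤ _
      omega
    refine ⟨new₃ ++ (new₂ ++ new₁), x, A ∪ B, (𝒱₁ ∪ 𝒱₂) ∪ 𝒱₃,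
      relCons ((𝒦₁ ∪ 𝒦₂) ∪ 𝒦₃) B x (A₂ ∪ B), ((𝓛₁ ++ 𝓛₂) ++ 𝓝).map f, ?_⟩
    constructor
    · -- hist
      have := S.hist
      simpa [List.append_assoc] using this
    · -- len
      have h1 := P₁.len
      have h2 := P₂.len
      have h3 := S.len
      have h4 : 36 * h * 2 ^ (k + 1) = 36 * h * 2 ^ k + 36 * h * 2 ^ k := by ring
      have h5 : 2 * (18 * h) = 36 * h := by ring
      simp only [List.length_append]
      omega
    · rw [hT₃']; exact hrel
    · -- card
      have h1 : (A ∪ B) \ A ⊆ B := by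
        intro c hc
        simp only [Finset.mem_sdiff, Finset.mem_union] at hc
        tauto
      exact (Finset.card_le_card h1).trans hBcard
    · -- explanations
      intro e he
      rw [hT₃']
      rcases List.mem_append.mp he with he | he
      · have h1 := S.expl e he
        rw [hT₂'] at h1
        rw [hT₃, hT₂']
        exact h1.right
      rcases List.mem_append.mp he with he | he
      · have h1 := P₂.expl e he
        exact (h1.right (𝒱₁ := 𝒱₁)).append hstart₃
      · exact ((P₁.expl e he).append hstart₂).append hstart₃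
    · rw [hT₃']
      exact (P₁.start.append hstart₂).append hstart₃
    · -- weights of the records
      have key : ∀ l : List (Rec n), (∀ r ∈ l, r.lev < k) →
          (l.map fun r => (1 / 5 : ℝ) ^ (k + 1 - r.lev)).sum =
            1 / 5 * (l.map fun r => (1 / 5 : ℝ) ^ (k - r.lev)).sum := by
        intro l hl
        rw [← List.sum_map_mul_left]
        congr 1
        apply List.map_congr_left
        intro r hr
        have : k + 1 - r.lev = (k - r.lev) + 1 := by have := hl r hr; omega
        rw [this, pow_succ, mul_comm]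
      have h1 := P₁.recs
      have h3 := P₂.recs
      have h2 : (𝓝.map fun r => (1 / 5 : ℝ) ^ (k + 1 - r.lev)).sum = 18 * h * (1 / 5) := by
        have e1 : (𝓝.map fun r => (1 / 5 : ℝ) ^ (k + 1 - r.lev)) = 𝓝.map fun _ => (1 / 5 : ℝ) := by
          apply List.map_congr_left
          intro r hr
          rw [S.rec_lev r hr]
          have : k + 1 - k = 1 := by omega
          rw [this, pow_one]
        rw [e1, List.map_const', List.sum_replicate, S.recs_len, nsmul_eq_mul]
        push_cast; ring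
      rw [List.map_map]
      have h4 : (((𝓛₁ ++ 𝓛₂) ++ 𝓝).map
          ((fun r : Rec n => (1 / 5 : ℝ) ^ (k + 1 - r.lev)) ∘ f)).sum =
          (((𝓛₁ ++ 𝓛₂) ++ 𝓝).map fun r : Rec n => (1 / 5 : ℝ) ^ (k + 1 - r.lev)).sum := rfl
      rw [h4, List.map_append, List.sum_append, h2, List.map_append, List.sum_append,
        key 𝓛₁ P₁.rec_lev, key 𝓛₂ P₂.rec_lev]
      linarith
    · -- levels
      intro r hr
      obtain ⟨r₁, hr₁, rfl⟩ := List.mem_map.mp hr
      show r₁.lev < k + 1
      rcases List.mem_append.mp hr₁ with hr₁ | hr₁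
      · have := hlevs r₁ hr₁
        omega
      · have := S.rec_lev r₁ hr₁
        omega
    · -- closed sets of records
      intro r hr
      obtain ⟨r₁, hr₁, rfl⟩ := List.mem_map.mp hr
      show A ⊆ r₁.Z
      rcases List.mem_append.mp hr₁ with hr₁ | hr₁
      · rcases List.mem_append.mp hr₁ with hr₁ | hr₁
        · exact P₁.rec_sub r₁ hr₁
        · exact hAA₁.trans (P₂.rec_sub r₁ hr₁)
      · exact (hAA₁.trans hA₁A₂).trans (S.rec_sub r₁ hr₁)
    · -- sizes of the closed sets of records
      have hsd' : ∀ {X Y Z : Finset (Fin n)} {a b : ℕ}, (Z \ Y).card ≤ a → (Y \ X).card ≤ b →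
          (Z \ X).card ≤ a + b := by
        intro X Y Z a b h1 h2
        have h3 : Z \ X ⊆ (Z \ Y) ∪ (Y \ X) := by
          intro c hc
          simp only [Finset.mem_sdiff, Finset.mem_union] at hc ⊢
          tauto
        have h4 := Finset.card_le_card h3
        have h5 := Finset.card_union_le (Z \ Y) (Y \ X)
        omega
      intro r hr
      obtain ⟨r₁, hr₁, rfl⟩ := List.mem_map.mp hr
      show (r₁.Z \ A).card ≤ 14 * s * r₁.lev + 2 + (k + 1 - r₁.lev + 2) * s
      rcases List.mem_append.mp hr₁ with hr₁ | hr₁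
      · have hlev := hlevs r₁ hr₁
        have h6 : (k + 1 - r₁.lev + 2) * s = (k - r₁.lev + 2) * s + s := by
          rw [show k + 1 - r₁.lev + 2 = (k - r₁.lev + 2) + 1 by omega]; ring
        rcases List.mem_append.mp hr₁ with hr₁ | hr₁
        · have := P₁.rec_Z r₁ hr₁
          omega
        · have := hsd' (P₂.rec_Z r₁ hr₁) P₁.card
          omega
      · have h1 := S.rec_lev r₁ hr₁
        have h2 := hsd' (hsd' (S.rec_Z r₁ hr₁) P₂.card) P₁.card
        have h6 : (k + 1 - r₁.lev + 2) * s = 3 * s := by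
          rw [h1, show k + 1 - k + 2 = 3 by omega]
        rw [h6, h1]
        omega
    · intro r hr
      obtain ⟨r₁, hr₁, rfl⟩ := List.mem_map.mp hr
      have h7 := hfU r₁
      show (f r₁).U.card ≤ (k + 1 - r₁.lev + 1) * s
      rcases List.mem_append.mp hr₁ with hr₁ | hr₁
      · have hlev := hlevs r₁ hr₁
        have h6 : (k + 1 - r₁.lev + 1) * s = (k - r₁.lev + 1) * s + s := by
          rw [show k + 1 - r₁.lev + 1 = (k - r₁.lev + 1) + 1 by omega]; ring
        rcases List.mem_append.mp hr₁ with hr₁ | hr₁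
        · have := P₁.rec_U r₁ hr₁
          omega
        · have := P₂.rec_U r₁ hr₁
          omega
      · have h1 := S.rec_lev r₁ hr₁
        have h2 := S.rec_U r₁ hr₁
        have h6 : (k + 1 - r₁.lev + 1) * s = 2 * s := by
          rw [h1, show k + 1 - k + 1 = 2 by omega]
        rw [h6]
        omega
    · -- every constraint belongs to a record
      rintro κ (⟨κ₀, hκ₀, h1, h2, h3⟩ | ⟨h1, h2, h3⟩)
      · have hex : ∃ r ∈ (𝓛₁ ++ 𝓛₂) ++ 𝓝, Covers r κ₀ := by
          rcases hκ₀ with (hκ₀ | hκ₀) | hκ₀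
          · obtain ⟨r, hr, h⟩ := P₁.cover κ₀ hκ₀
            exact ⟨r, List.mem_append_left _ (List.mem_append_left _ hr), h⟩
          · obtain ⟨r, hr, h⟩ := P₂.cover κ₀ hκ₀
            exact ⟨r, List.mem_append_left _ (List.mem_append_right _ hr), h⟩
          · obtain ⟨r, hr, h⟩ := S.cover κ₀ hκ₀
            exact ⟨r, List.mem_append_right _ hr, h⟩
        obtain ⟨r, hr, h4, c₀, h5⟩ := hex
        refine ⟨f r, List.mem_map.mpr ⟨r, hr, rfl⟩, ?_, c₀, ?_⟩
        · rw [h3]
          exact Finset.union_subset_union_left h4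
        · intro c hc hcc
          rw [h1, h2]; exact h5 c hc hcc
      · obtain ⟨r, hr, h4, c₀, h5⟩ := S.last (by omega)
        refine ⟨f r, List.mem_map.mpr ⟨r, List.mem_append_right _ hr, rfl⟩, ?_, c₀, ?_⟩
        · rw [h3]; simp
        · intro c hc hcc
          rw [h1, h2]; exact h5 c hc hcc

end Pool.Agent.MP4d246d.Gain.Sq
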