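import Pool.Agent.Lib.MP_4d246d_lc.Gain.Final
import Pool.Agent.Lib.MP_4d246d_lc.Sq.Play

/-!
# From the adversary to an abstract objective function
-/

namespace Pool.Agent.MP4d246d.Gain.Sq

variable {n : ℕ}

/-- There is an orientation of the whole cube with a potential that explains a long history. -/
theorem exists_structure (ρ : PivotRule n) (v₀ : Vertex n) (h : ℕ) (hh : 1 ≤ h)
    (hn : 980 * h ^ 2 ≤ n) :
    ∃ (l : History n) (p : Vertex n) (G : Vertex n → Vertex n) (f₀ : Vertex n → ℝ),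
      Hist ρ v₀ l p ∧ 36 * h * 2 ^ h ≤ l.length + 36 * h ∧
      (∀ e ∈ l, ∃ (τ : ℕ) (u : Vertex n) (S : Finset (Fin n)), e = shown τ u S ∧
        (∀ c, c ∈ S ↔ G u c ≠ u c) ∧ f₀ u = τ ∧ ∀ c ∈ S, f₀ (nb u c) = τ + 1) ∧
      (∀ y z, y ≠ z → ∃ c, y c ≠ z c ∧ G y c = G z c) ∧
      (∀ y c, G y c ≠ y c → f₀ y < f₀ (nb y c)) := by
  classical
  set s := 70 * h with hs
  have hsize : 14 * s * h = 980 * h ^ 2 := by rw [hs]; ring
  obtain ⟨E, -, hE⟩ := Finset.exists_subset_card_eq (s := (Finset.univ : Finset (Fin n)))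
    (n := n - 14 * s * h) (by simp)
  have hE' : Eᶜ.card = 14 * s * h := by
    rw [Finset.card_compl, Fintype.card_fin, hE]; omega
  obtain ⟨new, p', A', 𝒱, 𝒦, 𝓛, P⟩ := play ρ v₀ E h s hh hs hE' h [] v₀ E Hist.nil subset_rfl
    (by simp)
  set T' : ℝ := (new.length : ℝ) + (([] : History n).length : ℕ) with hT'
  -- the last part
  obtain ⟨G', f', hG', hleaf⟩ := leaf_good A' p' T' ∅ v₀ (by simp) (by simp)
  obtain ⟨G₁, f₁, hG₁, hag, hmark, -, -⟩ := P.seg.ext ∅ v₀ (by simp) (by simp) G' f'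
    (by rw [Finset.image_empty]; exact hG')
  have hp' : f₁ p' = T' := by
    have h1 := (hag p' ⟨fun _ _ => rfl, by simp⟩).2
    rw [h1, (hleaf p' (fun _ _ => rfl) (by simp)).2, dist_self]
    simp
  -- the projection
  let π : Vertex n → Vertex n := fun y c => if c ∈ E then v₀ c else y c
  have hπE : ∀ y, ∀ c ∈ E, π y c = v₀ c := fun y c hc => by simp only [π]; rw [if_pos hc]
  have hπN : ∀ y, ∀ c, c ∉ E → π y c = y c := fun y c hc => by simp only [π]; rw [if_neg hc]
  have hdom : ∀ y, (∀ c ∈ E, y c = v₀ c) → Dom E v₀ ∅ v₀ y := fun y hy => ⟨hy, by simp⟩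
  have hπid : ∀ y, (∀ c ∈ E, y c = v₀ c) → π y = y := by
    intro y hy
    funext c
    by_cases hc : c ∈ E
    · rw [hπE y c hc, hy c hc]
    · exact hπN y c hc
  let cnt : Vertex n → ℕ := fun y => (E.filter fun c => y c ≠ v₀ c).card
  let G : Vertex n → Vertex n := fun y => G₁ (π y)
  let f₀ : Vertex n → ℝ := fun y => f₁ (π y) - cnt y
  have hGE : ∀ y, ∀ c ∈ E, G y c = v₀ c := fun y c hc => hG₁.closed (π y) (hdom _ (hπE y)) c hc
  have hval : ∀ y, (∀ c ∈ E, y c = v₀ c) → f₀ y = f₁ y := by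
    intro y hy
    have h1 : cnt y = 0 := by
      simp only [cnt]
      rw [Finset.card_eq_zero, Finset.filter_eq_empty_iff]
      intro c hc h
      exact h (hy c hc)
    simp only [f₀]
    rw [hπid y hy, h1]; simp
  refine ⟨new, p', G, f₀, by simpa using P.hist, P.len, ?_, ?_, ?_⟩
  · intro e he
    obtain ⟨τ, v, S, h1, ⟨g, h2, h3⟩, h4⟩ := P.expl e he
    obtain ⟨hd, hg, hx⟩ := hmark _ h2
    refine ⟨τ, v, S, h1, ?_, ?_, ?_⟩
    · intro c
      have : G v = g := by
        show G₁ (π v) = g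
        rw [hπid v hd.1]; exact hg
      rw [this, h3 c]
    · rw [hval v hd.1]; exact hx
    · intro c hc
      rcases h4 c hc with ⟨g', h5⟩ | ⟨h5, h6⟩
      · obtain ⟨hd', -, hx'⟩ := hmark _ h5
        rw [hval _ hd'.1]; exact hx'
      · rw [h5]
        rw [hval p' (fun b hb => P.seg.eq b hb), hp']
        exact h6
  · intro y z hne
    by_cases hπ : π y = π z
    · have hex : ∃ c, y c ≠ z c := Function.ne_iff.mp hne
      obtain ⟨c, hc⟩ := hex
      refine ⟨c, hc, ?_⟩
      show G₁ (π y) c = G₁ (π z) c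
      rw [hπ]
    · obtain ⟨c, h1, h2⟩ := hG₁.sep (π y) (π z) (hdom _ (hπE y)) (hdom _ (hπE z)) hπ
      have hcE : c ∉ E := by
        intro hcE
        exact h1 (by rw [hπE y c hcE, hπE z c hcE])
      exact ⟨c, by rw [← hπN y c hcE, ← hπN z c hcE]; exact h1, h2⟩
  · intro y c hc
    by_cases hcE : c ∈ E
    · have hyc : y c ≠ v₀ c := by
        rw [hGE y c hcE] at hc; exact hc.symm
      have h1 : π (nb y c) = π y := by
        funext b
        by_cases hb : b ∈ E
        · rw [hπE _ b hb, hπE _ b hb]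
        · have hbc : b ≠ c := fun h => hb (h ▸ hcE)
          rw [hπN _ b hb, hπN _ b hb, nb_ne _ hbc]
      have h2 : cnt (nb y c) < cnt y := by
        apply Finset.card_lt_card
        rw [Finset.ssubset_iff_of_subset]
        · refine ⟨c, by simp [hcE, hyc], ?_⟩
          simp only [Finset.mem_filter, not_and, not_not]
          intro _
          rw [nb_self]; exact bool_flip hyc
        · intro b hb
          simp only [Finset.mem_filter] at hb ⊢
          refine ⟨hb.1, ?_⟩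
          by_cases hbc : b = c
          · subst hbc; exact hyc
          · rw [nb_ne _ hbc] at hb; exact hb.2
      have h3 : (cnt (nb y c) : ℝ) < cnt y := by exact_mod_cast h2
      simp only [f₀]
      rw [h1]; linarith
    · have h1 : π (nb y c) = nb (π y) c := by
        funext b
        by_cases hbc : b = c
        · subst hbc
          rw [hπN _ b hcE, nb_self, nb_self, hπN _ b hcE]
        · rw [nb_ne _ hbc]
          by_cases hb : b ∈ E
          · rw [hπE _ b hb, hπE _ b hb]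
          · rw [hπN _ b hb, hπN _ b hb, nb_ne _ hbc]
      have h2 : cnt (nb y c) = cnt y := by
        simp only [cnt]
        congr 1
        apply Finset.filter_congr
        intro b hb
        have hbc : b ≠ c := fun h => hcE (h ▸ hb)
        rw [nb_ne _ hbc]
      have h3 : G₁ (π y) c ≠ π y c := by rw [hπN y c hcE]; exact hc
      have h4 := hG₁.mono (π y) c (hdom _ (hπE y))
        (by rw [← h1]; exact hdom _ (hπE _)) h3
      simp only [f₀]
      rw [h1, h2]; linarith

/-- At least one pivot. -/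
theorem one_pivot (hn : 1 ≤ n) (ρ : PivotRule n) (v₀ : Vertex n) :
    ∃ f : Vertex n → ℝ, AbstractObjective f ∧ ∀ N ≤ 1, (run ρ f v₀ N).length = N + 1 := by
  classical
  let g : Vertex n := fun c => !v₀ c
  let φ : Vertex n → ℝ := fun y => ((Finset.univ.filter fun c => y c = g c).card : ℝ)
  have hsep : ∀ y z : Vertex n, y ≠ z → ∃ c, y c ≠ z c ∧ (fun _ => g) y c = (fun _ => g) z c := by
    intro y z hne
    obtain ⟨c, hc⟩ := Function.ne_iff.mp hne
    exact ⟨c, hc, rfl⟩
  have hφ : ∀ (y : Vertex n) c, (fun _ => g) y c ≠ y c → φ y < φ (nb y c) := by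
    intro y c hc
    have := card_target g y c hc
    simp only [φ]
    rw [this]; push_cast; linarith
  obtain ⟨f, h1, h2, -⟩ := exists_values (fun _ => g) φ hφ ∅ (by simp)
  refine ⟨f, abstractObjective_of_sep _ hsep f h1 h2, ?_⟩
  intro N hN
  rcases Nat.eq_zero_or_pos N with rfl | hN0
  · rfl
  · have hN1 : N = 1 := by omega
    subst hN1
    have h3 : f v₀ < f (nb v₀ ⟨0, hn⟩) := h2 v₀ ⟨0, hn⟩ (bool_not_ne _)
    have h4 : ∃ c, 0 < gain f v₀ c := ⟨⟨0, hn⟩, by
      rw [gain, lt_max_iff]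
      left
      linarith⟩
    show (step ρ f [see f v₀]).length = 2
    rw [see, step, if_pos h4]
    rfl

/-- Many pivots. -/
theorem many_pivots {h : ℕ} (hh : 1 ≤ h) (hn : 980 * h ^ 2 ≤ n) (ρ : PivotRule n)
    (v₀ : Vertex n) :
    ∃ f : Vertex n → ℝ, AbstractObjective f ∧
      ∀ N ≤ 36 * h * (2 ^ h - 1), (run ρ f v₀ N).length = N + 1 := by
  classical
  obtain ⟨l, p, G, f₀, hl, hlen, hex, hsep, hf₀⟩ := exists_structure ρ v₀ h hh hn
  obtain ⟨f, h1, h2, h3⟩ := exists_values G f₀ hf₀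
    {y | ∃ e ∈ l, e.1 = y ∨ ∃ c, 0 < e.2.2 c ∧ nb e.1 c = y} (by
      rintro y ⟨e, he, h⟩
      obtain ⟨τ, u, S, rfl, -, h4, h5⟩ := hex e he
      rcases h with h | ⟨c, hc, h⟩
      · have hy : u = y := h
        exact ⟨τ, by rw [← hy, h4]; simp⟩
      · have hy : nb u c = y := h
        exact ⟨τ + 1, by rw [← hy, h5 c (shown_pos.mp hc)]; push_cast; ring⟩)
  refine ⟨f, abstractObjective_of_sep G hsep f h1 h2, ?_⟩
  have hsee : ∀ e ∈ l, see f e.1 = e := by
    intro e he
    obtain ⟨τ, u, S, rfl, h4, h5, h6⟩ := hex e he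
    have h7 : f u = τ + eps u := by rw [h3 u ⟨_, he, Or.inl rfl⟩, h5]
    have h8 : gain f u = fun c => if c ∈ S then 1 + eps (nb u c) - eps u else 0 := by
      funext c
      by_cases hc : c ∈ S
      · have h9 : f (nb u c) = τ + 1 + eps (nb u c) := by
          rw [h3 (nb u c) ⟨_, he, Or.inr ⟨c, shown_pos.mpr hc, rfl⟩⟩, h6 c hc]
        have h10 := eps_nonneg (nb u c)
        have h11 := eps_lt u
        simp only [gain, hc, if_true]
        rw [h9, h7, max_eq_left (by linarith)]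
        ring
      · have h9 : ¬ f u < f (nb u c) := by
          rw [improving_iff G hsep f h2 u c]
          exact fun h => hc ((h4 c).mpr h)
        simp only [gain, hc, if_false]
        rw [max_eq_right (by linarith [not_lt.mp h9])]
    show ((u, f u, gain f u) : Entry n) = (u, (τ : ℝ) + eps u, _)
    rw [h7, h8]
  have hrun := run_eq ρ v₀ f hl hsee
  have h5 : (run ρ f v₀ l.length).length = l.length + 1 := by rw [hrun]; simp
  intro N hN
  have hpos : 0 < 2 ^ h := Nat.pow_pos (by norm_num)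
  have h9 : 36 * h * (2 ^ h - 1) + 36 * h = 36 * h * 2 ^ h := by
    obtain ⟨d, hd⟩ : ∃ d, 2 ^ h = d + 1 := ⟨2 ^ h - 1, by omega⟩
    rw [hd, Nat.add_sub_cancel]
    ring
  have h6 := run_length_le' ρ v₀ f N (l.length - N)
  have h7 : N + (l.length - N) = l.length := by omega
  rw [h7, h5] at h6
  have h8 := run_length_le_succ ρ v₀ f N
  omega

/-- The theorem. -/
theorem main (hn : 1 ≤ n) (ρ : PivotRule n) (v₀ : Vertex n) :
    ∃ f : Vertex n → ℝ, AbstractObjective f ∧
      ∀ N : ℕ, (N : ℝ) ≤ 2 ^ (Real.sqrt n / 32) → (run ρ f v₀ N).length = N + 1 := by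
  set x : ℝ := Real.sqrt n with hx
  have hx0 : 0 ≤ x := Real.sqrt_nonneg _
  have hxx : x * x = n := Real.mul_self_sqrt (Nat.cast_nonneg n)
  have key : ∀ N k : ℕ, (N : ℝ) ≤ 2 ^ (x / 32) → x < 32 * k → N < 2 ^ k := by
    intro N k hN hk
    have h3 : (N : ℝ) < ((2 ^ k : ℕ) : ℝ) := by
      refine lt_of_le_of_lt hN ?_
      push_cast
      rw [← Real.rpow_natCast]
      apply Real.rpow_lt_rpow_of_exponent_lt (by norm_num)
      rw [div_lt_iff₀ (by norm_num)]
      linarith
    exact_mod_cast h3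
  set h := ⌊x / 31.31⌋₊ with hh
  have h1 : (h : ℝ) ≤ x / 31.31 := Nat.floor_le (by positivity)
  have h2 : x / 31.31 < h + 1 := Nat.lt_floor_add_one _
  have h3 : x < 32 * ((h + 1 : ℕ) : ℝ) := by
    rw [div_lt_iff₀ (by norm_num)] at h2
    push_cast
    nlinarith
  rcases Nat.eq_zero_or_pos h with h0 | hpos
  · obtain ⟨f, hf, hrun⟩ := one_pivot hn ρ v₀
    refine ⟨f, hf, fun N hN => hrun N ?_⟩
    have := key N (h + 1) hN h3
    rw [h0] at this
    omega
  · have h4 : 980 * h ^ 2 ≤ n := by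
      have h5 : (h : ℝ) * 31.31 ≤ x := by rwa [le_div_iff₀ (by norm_num)] at h1
      have h6 : (0 : ℝ) ≤ h := Nat.cast_nonneg _
      have h7 : ((980 * h ^ 2 : ℕ) : ℝ) ≤ (n : ℝ) := by
        push_cast
        nlinarith
      exact_mod_cast h7
    obtain ⟨f, hf, hrun⟩ := many_pivots hpos h4 ρ v₀
    refine ⟨f, hf, fun N hN => hrun N ?_⟩
    have h5 := key N (h + 1) hN h3
    have h6 : 2 ^ (h + 1) = 2 * 2 ^ h := by ring
    have h7 : 2 ≤ 2 ^ h := by
      calc 2 = 2 ^ 1 := by norm_num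
        _ ≤ 2 ^ h := Nat.pow_le_pow_right (by norm_num) hpos
    obtain ⟨d, hd⟩ : ∃ d, 2 ^ h = d + 2 := ⟨2 ^ h - 2, by omega⟩
    rw [hd] at h6 ⊢
    have h8 : 36 * h * (d + 2 - 1) = 36 * h * (d + 1) := by
      rw [show d + 2 - 1 = d + 1 by omega]
    have h9 : 36 * (d + 1) ≤ 36 * h * (d + 1) := by
      apply Nat.mul_le_mul_right
      omega
    omega

end Pool.Agent.MP4d246d.Gain.Sq
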