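import Pool.Agent.Lib.MP_4d246d_lc.Gain.Super

/-!
# Many legs of the same length in a row, with small closed sets
-/

namespace Pool.Agent.MP4d246d.Gain.Sq

variable {n : ℕ}

/-- The term of the record `r` in the potential. -/
noncomputable def term (s k : ℕ) (B : Finset (Fin n)) (x : Vertex n) (α : Rec n → ℕ)
    (r : Rec n) : ℝ :=
  (1 / 5) ^ (k - r.lev) * (1 / 4) ^ (B ∩ vset r x).card *
    Real.exp (3 / 4 * ((α r : ℝ) / ((14 * s * k + 2 : ℕ) : ℝ)))

theorem term_nonneg (s k : ℕ) (B : Finset (Fin n)) (x : Vertex n) (α : Rec n → ℕ) (r : Rec n) :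
    0 ≤ term s k B x α r := by
  unfold term; positivity

/-- The outcome of `j` legs of level `k` played from `p` with closed set `A`, against the earlier
legs `𝓛`. -/
structure Parts (ρ : PivotRule n) (v₀ : Vertex n) (h s k : ℕ)
    (l : History n) (p : Vertex n) (A : Finset (Fin n)) (𝓛 : List (Rec n)) (j : ℕ)
    (new : History n) (x : Vertex n) (B : Finset (Fin n)) (𝒱 : Set (Mark n)) (𝒦 : Set (Con n))
    (𝓝 : List (Rec n)) (α : Rec n → ℕ) : Prop where
  hist : Hist ρ v₀ (new ++ l) x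
  len : 2 * j ≤ new.length
  disj : Disjoint B A
  seg : Seg A p (l.length : ℝ) (A ∪ B) x ((new.length : ℝ) + l.length) 𝒱 𝒦 B
  pot : (𝓛.map (term s k B x α)).sum + 3 / 4 * ((B.card : ℝ) - 3 * j) ≤ 12 * h
  small : ∀ r ∈ 𝓛, term s k B x α r < 1
  alpha : ∀ r ∈ 𝓛, (dset r x).card + j * (7 * s * (k - r.lev)) ≤ 2 * α r + (dset r p).card
  see : ∀ κ ∈ 𝒦, κ.Sees B x
  cover : ∀ κ ∈ 𝒦, ∃ r ∈ 𝓝, Covers r κ
  last : 1 ≤ j → ∃ r ∈ 𝓝, Covers r ⟨x, A ∪ B, ∅⟩
  recs_len : 𝓝.length = j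
  rec_lev : ∀ r ∈ 𝓝, r.lev = k
  rec_sub : ∀ r ∈ 𝓝, A ⊆ r.Z
  rec_Z : ∀ r ∈ 𝓝, (r.Z \ A).card ≤ s + (14 * s * k + 2)
  rec_U : ∀ r ∈ 𝓝, r.U.card ≤ s
  expl : ∀ e ∈ new, Expl 𝒱 x ((new.length : ℝ) + l.length) e
  start : Start 𝒱 p (l.length : ℝ) x ((new.length : ℝ) + l.length)

theorem Parts.card {ρ : PivotRule n} {v₀ : Vertex n} {h s k : ℕ}
    {l : History n} {p : Vertex n} {A : Finset (Fin n)} {𝓛 : List (Rec n)} {j : ℕ}
    {new : History n} {x : Vertex n} {B : Finset (Fin n)} {𝒱 : Set (Mark n)} {𝒦 : Set (Con n)}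
    {𝓝 : List (Rec n)} {α : Rec n → ℕ}
    (P : Parts ρ v₀ h s k l p A 𝓛 j new x B 𝒱 𝒦 𝓝 α) (hj : j ≤ 18 * h) : B.card ≤ 70 * h := by
  have h1 := P.pot
  have h2 : 0 ≤ (𝓛.map (term s k B x α)).sum := by
    apply List.sum_nonneg
    intro y hy
    obtain ⟨r, -, rfl⟩ := List.mem_map.mp hy
    exact term_nonneg _ _ _ _ _ _
  have h3 : (j : ℝ) ≤ 18 * h := by exact_mod_cast hj
  have h4 : (B.card : ℝ) ≤ 70 * h := by linarith
  exact_mod_cast h4

theorem parts_zero (ρ : PivotRule n) (v₀ : Vertex n) (h s k : ℕ)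
    (l : History n) (p : Vertex n) (A : Finset (Fin n)) (𝓛 : List (Rec n))
    (hl : Hist ρ v₀ l p) (hlev : ∀ r ∈ 𝓛, r.lev < k)
    (hW : (𝓛.map fun r => (1 / 5 : ℝ) ^ (k - r.lev)).sum ≤ 12 * h) :
    Parts ρ v₀ h s k l p A 𝓛 0 [] p ∅ ∅ ∅ [] (fun _ => 0) := by
  classical
  have hterm : ∀ r, term s k ∅ p (fun _ => 0) r = (1 / 5 : ℝ) ^ (k - r.lev) := by
    intro r; simp [term]
  constructor
  · simpa using hl
  · simp
  · simp
  · simpa using seg_empty A p (l.length : ℝ)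
  · have : (𝓛.map (term s k ∅ p (fun _ => 0))).sum =
        (𝓛.map fun r => (1 / 5 : ℝ) ^ (k - r.lev)).sum := by
      congr 1
      exact List.map_congr_left fun r _ => hterm r
    rw [this]
    simpa using hW
  · intro r hr
    rw [hterm]
    have := hlev r hr
    exact pow_lt_one₀ (by norm_num) (by norm_num) (by omega)
  · intro r hr; simp
  · simp
  · simp
  · intro h; omega
  · rfl
  · simp
  · simp
  · simp
  · simp
  · simp
  · left; simp

theorem parts_step (ρ : PivotRule n) (v₀ : Vertex n) (h s k : ℕ) (hs : s = 70 * h)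
    (l : History n) (p : Vertex n) (A : Finset (Fin n))
    (hA : A.card + s + (14 * s * k + 2) ≤ n) (𝓛 : List (Rec n))
    (hlev : ∀ r ∈ 𝓛, r.lev < k)
    (hZ : ∀ r ∈ 𝓛, (r.Z \ A).card ≤ 14 * s * r.lev + 2 + (k - r.lev + 2) * s)
    (hU : ∀ r ∈ 𝓛, r.U.card ≤ (k - r.lev + 1) * s) (j : ℕ) (hj : j + 1 ≤ 18 * h)
    (new : History n) (x : Vertex n) (B : Finset (Fin n)) (𝒱 : Set (Mark n)) (𝒦 : Set (Con n))
    (𝓝 : List (Rec n)) (α : Rec n → ℕ)
    (P : Parts ρ v₀ h s k l p A 𝓛 j new x B 𝒱 𝒦 𝓝 α) :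
    ∃ (new' : History n) (x' : Vertex n) (B' : Finset (Fin n)) (𝒱' : Set (Mark n))
      (𝒦' : Set (Con n)) (𝓝' : List (Rec n)) (α' : Rec n → ℕ),
      Parts ρ v₀ h s k l p A 𝓛 (j + 1) new' x' B' 𝒱' 𝒦' 𝓝' α' := by
  classical
  have hBcard := P.card (by omega)
  rw [← hs] at hBcard
  have hcard : (A ∪ B).card + (14 * s * k + 2) ≤ n := by
    have h1 := Finset.card_union_le A B
    omega
  obtain ⟨new₂, Q, c₁, c₂, L1, L2, L3, L4, L5, L6, L7, L8⟩ :=
    leg ρ v₀ (A ∪ B) x (new ++ l) P.hist (14 * s * k) hcard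
  set x' := flipOn Q x with hx'
  have hQne : Q.Nonempty := ⟨c₁, L5⟩
  have hQA : ∀ b ∈ A, b ∉ Q := fun b hb hbQ =>
    (Finset.disjoint_left.mp L3) hbQ (Finset.mem_union_left _ hb)
  have hQB : ∀ b ∈ B, b ∉ Q := fun b hb hbQ =>
    (Finset.disjoint_left.mp L3) hbQ (Finset.mem_union_right _ hb)
  have hxB : ∀ b ∈ B, x' b = x b := fun b hb => flipOn_notMem (hQB b hb)
  -- the new hits
  obtain ⟨H, hHQ, hH1, hH2⟩ := exists_hits Q hQne 𝓛 (term s k B x α)
    (fun r => vset r x' ∩ Q) (fun r _ => Finset.inter_subset_right)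
    (fun r _ => term_nonneg _ _ _ _ _ _) P.small
  set C := insert c₁ (insert c₂ H) with hC
  have hCQ : C ⊆ Q := Finset.insert_subset L5 (Finset.insert_subset L6 hHQ)
  have hCcard : C.card ≤ H.card + 2 := by
    have h1 : C.card ≤ (insert c₂ H).card + 1 := Finset.card_insert_le c₁ (insert c₂ H)
    have h2 : (insert c₂ H).card ≤ H.card + 1 := Finset.card_insert_le c₂ H
    omega
  have hC1 : c₁ ∈ C := Finset.mem_insert_self _ _
  have hC2 : c₂ ∈ C := Finset.mem_insert_of_mem (Finset.mem_insert_self _ _)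
  set α' : Rec n → ℕ := fun r => α r + (vset r x' ∩ Q).card with hα'
  have hseg := leg_seg (A ∪ B) x ((new.length : ℝ) + l.length) Q C L3 hCQ ⟨c₁, hC1⟩
  have hQcard : (Q.card : ℝ) = ((14 * s * k + 2 : ℕ) : ℝ) := by rw [L2]
  have hlen : (((new₂ ++ new).length : ℕ) : ℝ) + l.length =
      ((new.length : ℝ) + l.length) + Q.card := by
    rw [List.length_append, L4, hQcard]; push_cast; ring
  -- terms
  have hterm : ∀ r ∈ 𝓛, term s k (B ∪ C) x' α' r ≤
      term s k B x α r * Real.exp (3 / 4 * (((vset r x' ∩ Q).card : ℝ) / Q.card)) *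
        (1 / 4) ^ (H ∩ (vset r x' ∩ Q)).card := by
    intro r _
    have h1 : (B ∩ vset r x).card + (H ∩ (vset r x' ∩ Q)).card ≤ ((B ∪ C) ∩ vset r x').card := by
      have hdis : Disjoint (B ∩ vset r x) (H ∩ (vset r x' ∩ Q)) := by
        rw [Finset.disjoint_left]
        intro c hc hc'
        simp only [Finset.mem_inter] at hc hc'
        exact hQB c hc.1 hc'.2.2
      rw [← Finset.card_union_of_disjoint hdis]
      apply Finset.card_le_card
      intro c hc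
      rw [Finset.mem_union, Finset.mem_inter, Finset.mem_inter, Finset.mem_inter] at hc
      rw [Finset.mem_inter, Finset.mem_union]
      rcases hc with ⟨hcB, hcV⟩ | ⟨hcH, hcV, -⟩
      · refine ⟨Or.inl hcB, ?_⟩
        rw [mem_vset] at hcV ⊢
        rw [hxB c hcB]; exact hcV
      · exact ⟨Or.inr (Finset.mem_insert_of_mem (Finset.mem_insert_of_mem hcH)), hcV⟩
    have h2 : ((1 : ℝ) / 4) ^ ((B ∪ C) ∩ vset r x').card ≤
        (1 / 4) ^ (B ∩ vset r x).card * (1 / 4) ^ (H ∩ (vset r x' ∩ Q)).card := by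
      rw [← pow_add]
      exact pow_le_pow_of_le_one (by norm_num) (by norm_num) h1
    have h3 : Real.exp (3 / 4 * ((α' r : ℝ) / ((14 * s * k + 2 : ℕ) : ℝ))) =
        Real.exp (3 / 4 * ((α r : ℝ) / ((14 * s * k + 2 : ℕ) : ℝ))) *
          Real.exp (3 / 4 * (((vset r x' ∩ Q).card : ℝ) / Q.card)) := by
      rw [← Real.exp_add]
      congr 1
      rw [hQcard]
      simp only [hα']
      push_cast
      ring
    unfold term
    rw [h3]
    calc (1 / 5 : ℝ) ^ (k - r.lev) * (1 / 4) ^ ((B ∪ C) ∩ vset r x').card *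
          (Real.exp (3 / 4 * ((α r : ℝ) / ((14 * s * k + 2 : ℕ) : ℝ))) *
          Real.exp (3 / 4 * (((vset r x' ∩ Q).card : ℝ) / Q.card)))
        ≤ (1 / 5 : ℝ) ^ (k - r.lev) * ((1 / 4) ^ (B ∩ vset r x).card *
          (1 / 4) ^ (H ∩ (vset r x' ∩ Q)).card) *
          (Real.exp (3 / 4 * ((α r : ℝ) / ((14 * s * k + 2 : ℕ) : ℝ))) *
          Real.exp (3 / 4 * (((vset r x' ∩ Q).card : ℝ) / Q.card))) := by
          apply mul_le_mul_of_nonneg_right _ (by positivity)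
          exact mul_le_mul_of_nonneg_left h2 (by positivity)
      _ = _ := by ring
  have hpot : (𝓛.map (term s k (B ∪ C) x' α')).sum +
      3 / 4 * (((B ∪ C).card : ℝ) - 3 * ((j + 1 : ℕ) : ℝ)) ≤ 12 * h := by
    have h1 := List.sum_le_sum hterm
    have h2 := P.pot
    have h3 : ((B ∪ C).card : ℝ) ≤ B.card + (H.card + 2) := by
      have := Finset.card_union_le B C
      have h4 : (B ∪ C).card ≤ B.card + (H.card + 2) := by omega
      exact_mod_cast h4
    push_cast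
    linarith
  have hBC : (B ∪ C).card ≤ s := by
    have h2 : 0 ≤ (𝓛.map (term s k (B ∪ C) x' α')).sum := by
      apply List.sum_nonneg
      intro y hy
      obtain ⟨r, -, rfl⟩ := List.mem_map.mp hy
      exact term_nonneg _ _ _ _ _ _
    have h3 : ((j + 1 : ℕ) : ℝ) ≤ 18 * h := by exact_mod_cast hj
    have h4 : ((B ∪ C).card : ℝ) ≤ 70 * h := by linarith
    have h5 : (B ∪ C).card ≤ 70 * h := by exact_mod_cast h4
    omega
  have hCc : C.card ≤ s := (Finset.card_le_card Finset.subset_union_right).trans hBC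
  -- the new record
  set r₀ : Rec n := ⟨x, (A ∪ B) ∪ Q, forb C x', k⟩ with hr₀
  have hcov : ∀ κ ∈ legCons (A ∪ B) x Q C, Covers r₀ κ := by
    rintro κ ⟨⟨h1, ⟨c₀, h2⟩, -⟩, h3, h4⟩
    refine ⟨by rw [h4], c₀, ?_⟩
    intro c hc hcc
    have hc' : c ∉ A ∪ B ∧ c ∉ Q := by
      rw [← not_or, ← Finset.mem_union]; exact hc
    have h5 : κ.u c = x c := h2 c hc'.1 hc'.2 hcc
    refine ⟨h5, ?_⟩
    rw [h3, h5, tgt_notMem hc'.1]
    exact (bool_not_ne _).symm
  have hdisj : Disjoint (B ∪ C) A := by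
    rw [Finset.disjoint_union_left]
    refine ⟨P.disj, ?_⟩
    rw [Finset.disjoint_left]
    intro c hc hcA
    exact hQA c hcA (hCQ hc)
  refine ⟨new₂ ++ new, x', B ∪ C, 𝒱 ∪ legMarks (A ∪ B) x ((new.length : ℝ) + l.length) Q C,
    𝒦 ∪ legCons (A ∪ B) x Q C, r₀ :: 𝓝, α', ?_⟩
  constructor
  · rw [List.append_assoc]; exact L1
  · have := P.len
    rw [List.length_append, L4]; omega
  · exact hdisj
  · rw [hlen, ← Finset.union_assoc]
    refine seg_compose P.seg hseg (B ∪ C) ?_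
    intro b hb
    rcases Finset.mem_union.mp hb with hb | hb
    · right
      refine ⟨?_, Finset.mem_union_right _ hb, fun hbA => (Finset.disjoint_left.mp P.disj) hb hbA⟩
      have : (1 : ℝ) ≤ Q.card := by
        have := Finset.card_pos.mpr hQne
        exact_mod_cast this
      linarith
    · left; exact hb
  · exact hpot
  · intro r hr
    exact lt_of_le_of_lt (hterm r hr) (hH1 r hr)
  · intro r hr
    have h1 := P.alpha r hr
    have h2 := dset_flip r x Q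
    rw [← hx'] at h2
    have h3 := hZ r hr
    have h4 := hU r hr
    have h5 := hlev r hr
    have h6 : Q.card ≤ (Q \ r.Z).card + (r.Z \ A).card := by
      have h7 : Q ⊆ (Q \ r.Z) ∪ (r.Z \ A) := by
        intro c hc
        rw [Finset.mem_union, Finset.mem_sdiff, Finset.mem_sdiff]
        by_cases hcZ : c ∈ r.Z
        · right; exact ⟨hcZ, fun hcA => hQA c hcA hc⟩
        · left; exact ⟨hc, hcZ⟩
      exact (Finset.card_le_card h7).trans (Finset.card_union_le _ _)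
    obtain ⟨t, ht⟩ : ∃ t, k - r.lev = t + 1 := ⟨k - r.lev - 1, by omega⟩
    have hk : k = r.lev + (t + 1) := by omega
    rw [ht] at h1 h3 h4
    rw [ht]
    have h8 : 14 * s * k = 14 * s * r.lev + 14 * (s * t) + 14 * s := by rw [hk]; ring
    have h9 : (j + 1) * (7 * s * (t + 1)) = j * (7 * s * (t + 1)) + (7 * (s * t) + 7 * s) := by ring
    have h10 : (t + 1 + 2) * s = s * t + 3 * s := by ring
    have h11 : (t + 1 + 1) * s = s * t + 2 * s := by ring
    have h12 : α' r = α r + (vset r x' ∩ Q).card := rfl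
    rw [h9, h12]
    rw [h10] at h3
    rw [h11] at h4
    omega
  · rintro κ (hκ | hκ)
    · obtain ⟨b, hb, h1, h2, h3⟩ := P.see κ hκ
      rw [← hxB b hb] at h2 h3
      exact ⟨b, Finset.mem_union_left _ hb, h1, h2, h3⟩
    · obtain ⟨⟨h1, h2, b, hb, h3⟩, h4, h5⟩ := hκ
      have hbx : x' b = !x b := flipOn_mem (hCQ hb)
      have hbAB : b ∉ A ∪ B := fun hb' => (Finset.disjoint_left.mp L3) (hCQ hb) hb'
      refine ⟨b, Finset.mem_union_right _ hb, ?_, ?_, ?_⟩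
      · rw [h4, h3, tgt_notMem hbAB]; exact (bool_not_ne _).symm
      · rw [h5, notMem_forb]; intro _; rfl
      · rw [h3, hbx]; exact (bool_not_ne _).symm
  · rintro κ (hκ | hκ)
    · obtain ⟨r, hr, h1⟩ := P.cover κ hκ
      exact ⟨r, List.mem_cons_of_mem _ hr, h1⟩
    · exact ⟨r₀, List.mem_cons_self, hcov κ hκ⟩
  · intro _
    refine ⟨r₀, List.mem_cons_self, by simp, c₁, ?_⟩
    intro c hc _
    have hc' : c ∉ A ∪ B ∧ c ∉ Q := by
      rw [← not_or, ← Finset.mem_union]; exact hc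
    refine ⟨flipOn_notMem hc'.2, ?_⟩
    show c ∉ A ∪ (B ∪ C)
    rw [← Finset.union_assoc, Finset.mem_union, not_or]
    exact ⟨hc'.1, fun h => hc'.2 (hCQ h)⟩
  · rw [List.length_cons, P.recs_len]
  · intro r hr
    rcases List.mem_cons.mp hr with rfl | hr
    · rfl
    · exact P.rec_lev r hr
  · intro r hr
    rcases List.mem_cons.mp hr with rfl | hr
    · exact Finset.subset_union_left.trans Finset.subset_union_left
    · exact P.rec_sub r hr
  · intro r hr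
    rcases List.mem_cons.mp hr with rfl | hr
    · have h1 : ((A ∪ B) ∪ Q) \ A ⊆ B ∪ Q := by
        intro c hc
        simp only [Finset.mem_sdiff, Finset.mem_union] at hc ⊢
        tauto
      have h2 := Finset.card_le_card h1
      have h3 := Finset.card_union_le B Q
      show (((A ∪ B) ∪ Q) \ A).card ≤ s + (14 * s * k + 2)
      omega
    · exact P.rec_Z r hr
  · intro r hr
    rcases List.mem_cons.mp hr with rfl | hr
    · exact (forb_card C x').trans hCc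
    · exact P.rec_U r hr
  · intro e he
    rcases List.mem_append.mp he with he | he
    · obtain ⟨R, hRQ, h1, h2, h3⟩ := L8 e he
      have h4 := leg_expl (B := C) L3 hRQ hC1 hC2 L5 L7 h2 h3 h1
      have h5 : (((new ++ l).length : ℕ) : ℝ) = (new.length : ℝ) + l.length := by
        rw [List.length_append]; push_cast; ring
      rw [h5] at h4
      rw [hlen]
      exact h4.right
    · have h4 := P.expl e he
      exact h4.append (leg_start _ _ _ _ _ ⟨c₁, hC1⟩ _ _)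
  · exact P.start.append (leg_start _ _ _ _ _ ⟨c₁, hC1⟩ _ _)

theorem exp_bound (t : ℕ) (ht : 1 ≤ t) :
    (4 : ℝ) * 5 ^ t ≤ Real.exp (3 / 4 * ((9 * (t : ℝ) - 1) / 2)) := by
  induction t, ht using Nat.le_induction with
  | base =>
    have h1 := Real.exp_one_gt_d9
    have h2 : Real.exp (3 / 4 * ((9 * ((1 : ℕ) : ℝ) - 1) / 2)) = Real.exp 1 ^ 3 := by
      rw [← Real.exp_nat_mul]; congr 1; norm_num
    rw [h2]
    have h3 : (2.7182818283 : ℝ) ^ 3 ≤ Real.exp 1 ^ 3 :=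
      pow_le_pow_left₀ (by norm_num) (by linarith) 3
    norm_num at h3 ⊢
    linarith
  | succ t _ ih =>
    have h1 : Real.exp (3 / 4 * ((9 * ((t + 1 : ℕ) : ℝ) - 1) / 2)) =
        Real.exp (3 / 4 * ((9 * (t : ℝ) - 1) / 2)) * Real.exp (27 / 8) := by
      rw [← Real.exp_add]; congr 1; push_cast; ring
    have h2 : (5 : ℝ) ≤ Real.exp (27 / 8) := by
      have h3 := Real.exp_one_gt_d9
      have h4 : Real.exp 1 ^ 2 ≤ Real.exp (27 / 8) := by
        rw [← Real.exp_nat_mul]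
        exact Real.exp_le_exp.mpr (by norm_num)
      have h5 : (2.7 : ℝ) ^ 2 ≤ Real.exp 1 ^ 2 := pow_le_pow_left₀ (by norm_num) (by linarith) 2
      have h6 : (5 : ℝ) ≤ 2.7 ^ 2 := by norm_num
      linarith
    rw [h1, pow_succ]
    calc (4 : ℝ) * (5 ^ t * 5) = (4 * 5 ^ t) * 5 := by ring
      _ ≤ _ := mul_le_mul ih h2 (by norm_num) (Real.exp_pos _).le

/-- `18 h` legs of level `k`. -/
theorem super (ρ : PivotRule n) (v₀ : Vertex n) (E : Finset (Fin n)) (h s k : ℕ)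
    (hs : s = 70 * h) (hE : Eᶜ.card = 14 * s * h) (hk : k + 1 ≤ h)
    (l : History n) (p : Vertex n) (hl : Hist ρ v₀ l p) (A : Finset (Fin n))
    (hA : A.card + s + (14 * s * k + 2) ≤ n) (𝓛 : List (Rec n))
    (hlev : ∀ r ∈ 𝓛, r.lev < k)
    (hZ : ∀ r ∈ 𝓛, (r.Z \ A).card ≤ 14 * s * r.lev + 2 + (k - r.lev + 2) * s)
    (hU : ∀ r ∈ 𝓛, r.U.card ≤ (k - r.lev + 1) * s) (hEZ : ∀ r ∈ 𝓛, E ⊆ r.Z)
    (hW : (𝓛.map fun r => (1 / 5 : ℝ) ^ (k - r.lev)).sum ≤ 12 * h) :
    ∃ (new : History n) (x : Vertex n) (B : Finset (Fin n)) (𝒱 : Set (Mark n))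
      (𝒦 : Set (Con n)) (𝓝 : List (Rec n)) (α : Rec n → ℕ),
      Parts ρ v₀ h s k l p A 𝓛 (18 * h) new x B 𝒱 𝒦 𝓝 α ∧
        ∀ r ∈ 𝓛, 2 ≤ (B ∩ vset r x).card := by
  classical
  have key : ∀ j ≤ 18 * h, ∃ (new : History n) (x : Vertex n) (B : Finset (Fin n))
      (𝒱 : Set (Mark n)) (𝒦 : Set (Con n)) (𝓝 : List (Rec n)) (α : Rec n → ℕ),
      Parts ρ v₀ h s k l p A 𝓛 j new x B 𝒱 𝒦 𝓝 α := by
    intro j
    induction j with
    | zero =>
      intro _
      exact ⟨_, _, _, _, _, _, _, parts_zero ρ v₀ h s k l p A 𝓛 hl hlev hW⟩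
    | succ j ih =>
      intro hj
      obtain ⟨new, x, B, 𝒱, 𝒦, 𝓝, α, P⟩ := ih (by omega)
      exact parts_step ρ v₀ h s k hs l p A hA 𝓛 hlev hZ hU j hj new x B 𝒱 𝒦 𝓝 α P
  obtain ⟨new, x, B, 𝒱, 𝒦, 𝓝, α, P⟩ := key (18 * h) le_rfl
  refine ⟨new, x, B, 𝒱, 𝒦, 𝓝, α, P, ?_⟩
  intro r hr
  by_contra hcon
  have hhit : (B ∩ vset r x).card ≤ 1 := by omega
  have hspos : 1 ≤ s := by omega
  have hkh : 14 * s * k + 14 * s ≤ 14 * s * h := by
    calc 14 * s * k + 14 * s = 14 * s * (k + 1) := by ring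
      _ ≤ 14 * s * h := Nat.mul_le_mul_left _ hk
  have h1 := P.alpha r hr
  have h2 : (dset r p).card ≤ 14 * s * h := by
    rw [← hE]
    apply Finset.card_le_card
    intro c hc
    rw [mem_dset] at hc
    rw [Finset.mem_compl]
    exact fun hcE => hc.1 (hEZ r hr hcE)
  set t := k - r.lev with ht
  have ht1 : 1 ≤ t := by have := hlev r hr; omega
  have h3 : 14 * s * h * (9 * t) ≤ 2 * α r + 14 * s * h := by
    have e1 : 18 * h * (7 * s * t) = 14 * s * h * (9 * t) := by ring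
    rw [e1] at h1
    omega
  have hM : ((14 * s * k + 2 : ℕ) : ℝ) ≤ ((14 * s * h : ℕ) : ℝ) := by
    have : 14 * s * k + 2 ≤ 14 * s * h := by omega
    exact_mod_cast this
  have hMpos : (0 : ℝ) < ((14 * s * k + 2 : ℕ) : ℝ) := by positivity
  have ht1' : (1 : ℝ) ≤ t := by exact_mod_cast ht1
  have h4 : (9 * (t : ℝ) - 1) / 2 ≤ (α r : ℝ) / ((14 * s * k + 2 : ℕ) : ℝ) := by
    rw [le_div_iff₀ hMpos]
    have h5 : ((14 * s * h : ℕ) : ℝ) * (9 * t) ≤ 2 * α r + ((14 * s * h : ℕ) : ℝ) := by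
      exact_mod_cast h3
    calc (9 * (t : ℝ) - 1) / 2 * ((14 * s * k + 2 : ℕ) : ℝ)
        ≤ (9 * (t : ℝ) - 1) / 2 * ((14 * s * h : ℕ) : ℝ) :=
          mul_le_mul_of_nonneg_left hM (by linarith)
      _ ≤ α r := by linarith
  have h5 := P.small r hr
  have h6 : (1 : ℝ) ≤ term s k B x α r := by
    have h7 : ((1 : ℝ) / 4) ^ 1 ≤ (1 / 4) ^ (B ∩ vset r x).card :=
      pow_le_pow_of_le_one (by norm_num) (by norm_num) hhit
    have h8 := exp_bound t ht1
    have h9 : Real.exp (3 / 4 * ((9 * (t : ℝ) - 1) / 2)) ≤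
        Real.exp (3 / 4 * ((α r : ℝ) / ((14 * s * k + 2 : ℕ) : ℝ))) :=
      Real.exp_le_exp.mpr (by linarith)
    calc (1 : ℝ) = (1 / 5) ^ t * (1 / 4) ^ 1 * (4 * 5 ^ t) := by
          rw [show (1 / 5 : ℝ) ^ t * (1 / 4) ^ 1 * (4 * 5 ^ t) = ((1 / 5) * 5 : ℝ) ^ t by
            rw [mul_pow]; ring]
          norm_num
      _ ≤ (1 / 5) ^ t * (1 / 4) ^ (B ∩ vset r x).card *
          Real.exp (3 / 4 * ((α r : ℝ) / ((14 * s * k + 2 : ℕ) : ℝ))) := by
          apply mul_le_mul _ (h8.trans h9) (by positivity) (by positivity)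
          exact mul_le_mul_of_nonneg_left h7 (by positivity)
      _ = term s k B x α r := rfl
  linarith

end Pool.Agent.MP4d246d.Gain.Sq
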